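import Pool.Agent.N783.PF.Loc
import Pool.Agent.N707.PF.Maj
import Pool.Agent.N459.PF.Ram
import Pool.Agent.N457.PQ.Sqt

/-!
# The invariant at `q` in `S` over a number field

Project PF (helper783), part HQ (helper849).
-/

set_option autoImplicit false
set_option linter.all false

open Polynomial IsDedekindDomain Matrix NumberField
open scoped Classical

namespace Pool.Agent.N849.PF

open Pool.Agent.N783.PF
open Pool.Agent.N874.PP (Ev Sq1 U0)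
open Pool.Agent.N783.PQ (tp Gm)

section gen

variable {F L : Type} [Field F] [NumberField F] [Field L] [NumberField L] [Algebra F L]
  {g : ℕ} {f : (𝓞 F)[X]} {θ : L}

theorem fin (h : IsGen g f θ) : FiniteDimensional F L :=
  Module.finite_of_finrank_pos (by rw [h.rank]; omega)

/-! ### Euler -/

theorem top_tr (hG : IsGen g f θ) (x : L) :
    hG.top x = Algebra.trace F L (x / aeval θ (derivative (fF f))) := by
  haveI := fin hG
  obtain ⟨σ⟩ : Nonempty (F →+* ℂ) := inferInstance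
  obtain ⟨E, hE⟩ := Pool.Agent.N707.PF.MAJ.exists_emb hG σ
  apply σ.injective
  rw [Pool.Agent.N707.PF.MAJ.euler hG hE x]
  letI : Algebra F ℂ := σ.toAlgebra
  have h1 := trace_eq_sum_embeddings (K := F) (L := L) ℂ (x := x / aeval θ (derivative (fF f)))
  have h2 : (algebraMap F ℂ) = σ := rfl
  rw [h2] at h1
  rw [h1]
  let φ : Fin (2 * g + 1) → (L →ₐ[F] ℂ) := fun k => { E k with commutes' := hE.com k }
  have hinj : Function.Injective φ := by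
    intro k l h
    apply hE.inj
    refine RingHom.ext fun y => ?_
    exact AlgHom.congr_fun h y
  have hbij : Function.Bijective φ := by
    rw [Fintype.bijective_iff_injective_and_card]
    refine ⟨hinj, ?_⟩
    rw [Fintype.card_fin, AlgHom.card, hG.rank]
  rw [← hbij.sum_comp]
  refine Finset.sum_congr rfl fun k _ => ?_
  show _ = E k (x / aeval θ (derivative (fF f)))
  rw [map_div₀, Pool.Agent.N707.PF.MAJ.deriv hG hE k]

theorem top_poly (hG : IsGen g f θ) (R : F[X]) (hR : R.natDegree < 2 * g + 1) :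
    hG.top (aeval θ R) = R.coeff (2 * g) := by
  have h1 : aeval θ R = ∑ i : Fin (2 * g + 1), R.coeff i • hG.basis i := by
    conv_lhs => rw [R.as_sum_range' (2 * g + 1) hR]
    rw [map_sum, Finset.sum_range]
    refine Finset.sum_congr rfl fun i _ => ?_
    rw [aeval_monomial, hG.basis_apply, Algebra.smul_def]
  rw [h1, IsGen.top, map_sum, Finset.sum_eq_single (Fin.last (2 * g))]
  · rw [map_smul, Module.Basis.coord_apply, Module.Basis.repr_self, Finsupp.single_eq_same,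
      smul_eq_mul, mul_one, Fin.val_last]
  · intro i _ hi
    rw [map_smul, Module.Basis.coord_apply, Module.Basis.repr_self,
      Finsupp.single_eq_of_ne (Ne.symm hi), smul_zero]
  · intro h
    exact absurd (Finset.mem_univ _) h

theorem tp_top (hG : IsGen g f θ) (P : F[X]) : tp g (fF f) P = hG.top (aeval θ P) := by
  have hm : (fF f).Monic := hG.mon.map _
  have hd : (fF f).natDegree = 2 * g + 1 := by
    rw [fF, hG.mon.natDegree_map, hG.deg]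
  have h1 : aeval θ P = aeval θ (P %ₘ fF f) :=
    (aeval_modByMonic_eq_self_of_root hG.root).symm
  rw [h1, top_poly hG, tp]
  have hne : fF f ≠ 1 := by
    intro h
    rw [h, natDegree_one] at hd
    omega
  have := natDegree_modByMonic_lt P hm hne
  rwa [hd] at this

/-! ### The integers -/

theorem surj (hI : S_INT) (hG : IsGen g f θ) (hsq : SqF g f) {θ' : 𝓞 L}
    (hθ' : algebraMap (𝓞 L) L θ' = θ) (x : 𝓞 L) :
    ∃ P : (𝓞 F)[X], P.degree < ((2 * g + 1 : ℕ) : WithBot ℕ) ∧ aeval θ' P = x := by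
  obtain ⟨v, hv⟩ := (hI g F L f θ hG hsq (x : L)).1 x.2
  refine ⟨∑ i : Fin (2 * g + 1), C (v i) * X ^ (i : ℕ), degree_sum_fin_lt _, ?_⟩
  apply RingOfIntegers.coe_injective
  have e : algebraMap (𝓞 L) L (aeval θ' (∑ i : Fin (2 * g + 1), C (v i) * X ^ (i : ℕ))) =
      aeval θ (∑ i : Fin (2 * g + 1), C (v i) * X ^ (i : ℕ)) := by
    rw [← hθ', aeval_algebraMap_apply]
  have hv' : algebraMap (𝓞 L) L x = ∑ i, algebraMap F L (v i : F) * θ ^ (i : ℕ) := hv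
  rw [e, hv', map_sum]
  refine Finset.sum_congr rfl fun i _ => ?_
  rw [map_mul, aeval_C, map_pow, aeval_X]
  rfl

theorem inj (hG : IsGen g f θ) {θ' : 𝓞 L} (hθ' : algebraMap (𝓞 L) L θ' = θ) {P : (𝓞 F)[X]}
    (hdeg : P.degree < ((2 * g + 1 : ℕ) : WithBot ℕ)) (h0 : aeval θ' P = 0) : P = 0 := by
  haveI := fin hG
  have h1 : aeval θ (P.map (algebraMap (𝓞 F) F)) = 0 := by
    rw [aeval_map_algebraMap, ← hθ', aeval_algebraMap_apply, h0, map_zero]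
  have h2 := minpoly.dvd F θ h1
  rw [Pool.Agent.N459.PF.minp hG] at h2
  have h3 : P.map (algebraMap (𝓞 F) F) = 0 := by
    refine eq_zero_of_dvd_of_degree_lt h2 ?_
    have hm : (fF f).Monic := hG.mon.map _
    rw [degree_eq_natDegree hm.ne_zero, fF, hG.mon.natDegree_map, hG.deg]
    exact lt_of_le_of_lt (degree_map_le) hdeg
  exact (Polynomial.map_eq_zero_iff (IsFractionRing.injective (𝓞 F) F)).1 h3

/-- evaluation at `θ` modulo `𝔓` -/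
theorem ev {θ' : 𝓞 L} {𝔭 : Ideal (𝓞 F)} {𝔓 : HeightOneSpectrum (𝓞 L)}
    (hO : 𝔭 ≤ 𝔓.asIdeal.comap (algebraMap (𝓞 F) (𝓞 L))) (P : (𝓞 F)[X]) :
    eval₂ (Ideal.quotientMap 𝔓.asIdeal (algebraMap (𝓞 F) (𝓞 L)) hO)
      (Ideal.Quotient.mk 𝔓.asIdeal θ') (rd 𝔭 P) = Ideal.Quotient.mk 𝔓.asIdeal (aeval θ' P) := by
  rw [rd, eval₂_map, Ideal.quotientMap_comp_mk, aeval_def, hom_eval₂]

theorem root' (hG : IsGen g f θ) {θ' : 𝓞 L} (hθ' : algebraMap (𝓞 L) L θ' = θ) :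
    aeval θ' f = 0 := by
  apply RingOfIntegers.coe_injective
  have h := hG.root
  rw [fF, aeval_map_algebraMap, ← hθ', aeval_algebraMap_apply] at h
  rw [h, map_zero]

/-- `f'(θ)` is a unit at the primes over `𝔭` -/
theorem unit (hG : IsGen g f θ) {𝔭 : Ideal (𝓞 F)} {𝔓 : HeightOneSpectrum (𝓞 L)} (hO : Ov 𝔭 𝔓)
    (hs : (rd 𝔭 f).Separable) : 𝔓.valuation L (aeval θ (derivative (fF f))) = 1 := by
  haveI := fin hG
  obtain ⟨θ', hθ'⟩ : ∃ θ' : 𝓞 L, algebraMap (𝓞 L) L θ' = θ :=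
    ⟨⟨θ, Pool.Agent.N459.PF.theta_int hG⟩, rfl⟩
  have hle : 𝔭 ≤ 𝔓.asIdeal.comap (algebraMap (𝓞 F) (𝓞 L)) := fun a ha => hO a ha
  have e1 : aeval θ (derivative (fF f)) = algebraMap (𝓞 L) L (aeval θ' (derivative f)) := by
    rw [← aeval_algebraMap_apply, hθ', fF, derivative_map, aeval_map_algebraMap]
  rw [e1]
  refine le_antisymm (𝔓.valuation_le_one _) (not_lt.1 fun hlt => ?_)
  rw [HeightOneSpectrum.valuation_lt_one_iff_mem] at hlt
  obtain ⟨a, b, hab⟩ := hs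
  have h1 := congrArg (eval₂ (Ideal.quotientMap 𝔓.asIdeal (algebraMap (𝓞 F) (𝓞 L)) hle)
      (Ideal.Quotient.mk 𝔓.asIdeal θ')) hab
  rw [rd, derivative_map, eval₂_add, eval₂_mul, eval₂_mul, eval₂_one] at h1
  have h2 := ev (θ' := θ') hle f
  have h3 := ev (θ' := θ') hle (derivative f)
  rw [rd] at h2 h3
  rw [h2, h3, root' hG hθ', map_zero, mul_zero, (Ideal.Quotient.eq_zero_iff_mem).2 hlt, mul_zero,
    add_zero] at h1
  haveI : Nontrivial (𝓞 L ⧸ 𝔓.asIdeal) := Ideal.Quotient.nontrivial_iff.2 𝔓.isPrime.ne_top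
  exact zero_ne_one h1

/-- the primes modulo which `f` is irreducible are inert -/
theorem inert (hG : IsGen g f θ) {θ' : 𝓞 L} (hθ' : algebraMap (𝓞 L) L θ' = θ)
    {𝔭 : Ideal (𝓞 F)} (h𝔭 : 𝔭.IsPrime) (h𝔭0 : 𝔭 ≠ ⊥) (hirr : Irreducible (rd 𝔭 f))
    {𝔓 : HeightOneSpectrum (𝓞 L)} (hO : Ov 𝔭 𝔓) {P : (𝓞 F)[X]}
    (hdeg : P.degree < ((2 * g + 1 : ℕ) : WithBot ℕ)) (hP : aeval θ' P ∈ 𝔓.asIdeal) :
    ∀ n, P.coeff n ∈ 𝔭 := by
  haveI : 𝔭.IsMaximal := h𝔭.isMaximal h𝔭0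
  letI : Field (𝓞 F ⧸ 𝔭) := Ideal.Quotient.field 𝔭
  have hle : 𝔭 ≤ 𝔓.asIdeal.comap (algebraMap (𝓞 F) (𝓞 L)) := fun a ha => hO a ha
  have hdvd : rd 𝔭 f ∣ rd 𝔭 P := by
    by_contra hcon
    obtain ⟨a, b, hab⟩ := (hirr.coprime_iff_not_dvd).2 hcon
    have h1 := congrArg (eval₂ (Ideal.quotientMap 𝔓.asIdeal (algebraMap (𝓞 F) (𝓞 L)) hle)
      (Ideal.Quotient.mk 𝔓.asIdeal θ')) hab
    have h4 : eval₂ (Ideal.quotientMap 𝔓.asIdeal (algebraMap (𝓞 F) (𝓞 L)) hle)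
      (Ideal.Quotient.mk 𝔓.asIdeal θ') (a * rd 𝔭 f + b * rd 𝔭 P) = 0 := by
      rw [eval₂_add, eval₂_mul, eval₂_mul, ev (θ' := θ') hle f, ev (θ' := θ') hle P, root' hG hθ',
        map_zero, mul_zero, (Ideal.Quotient.eq_zero_iff_mem).2 hP, mul_zero, add_zero]
    rw [h4, eval₂_one] at h1
    haveI : Nontrivial (𝓞 L ⧸ 𝔓.asIdeal) := Ideal.Quotient.nontrivial_iff.2 𝔓.isPrime.ne_top
    exact zero_ne_one h1
  have h0 : rd 𝔭 P = 0 := by
    refine eq_zero_of_dvd_of_degree_lt hdvd ?_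
    have hm : (rd 𝔭 f).Monic := hG.mon.map _
    rw [degree_eq_natDegree hm.ne_zero, rd, hG.mon.natDegree_map, hG.deg]
    exact lt_of_le_of_lt (degree_map_le) hdeg
  intro n
  have h1 : (rd 𝔭 P).coeff n = 0 := by rw [h0, coeff_zero]
  rw [rd, coeff_map] at h1
  exact (Ideal.Quotient.eq_zero_iff_mem).1 h1

theorem unram (hI : S_INT) (hG : IsGen g f θ) (hsq : SqF g f) {𝔭 : Ideal (𝓞 F)} (h𝔭 : 𝔭.IsPrime)
    (h𝔭0 : 𝔭 ≠ ⊥) (hirr : Irreducible (rd 𝔭 f)) {𝔓 : HeightOneSpectrum (𝓞 L)} (hO : Ov 𝔭 𝔓)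
    {a : 𝓞 F} (ha : a ∉ 𝔭 ^ 2) : algebraMap (𝓞 F) (𝓞 L) a ∉ 𝔓.asIdeal ^ 2 := by
  haveI := fin hG
  obtain ⟨θ', hθ'⟩ : ∃ θ' : 𝓞 L, algebraMap (𝓞 L) L θ' = θ :=
    ⟨⟨θ, Pool.Agent.N459.PF.theta_int hG⟩, rfl⟩
  intro hmem
  apply ha
  have h1 : 𝔓.asIdeal ≤ 𝔭.map (algebraMap (𝓞 F) (𝓞 L)) := by
    intro x hx
    obtain ⟨P, hP1, hP2⟩ := surj hI hG hsq hθ' x
    rw [← hP2] at hx ⊢
    have h2 := inert hG hθ' h𝔭 h𝔭0 hirr hO hP1 hx
    rw [aeval_eq_sum_range]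
    refine Ideal.sum_mem _ fun i _ => ?_
    rw [Algebra.smul_def]
    exact Ideal.mul_mem_right _ _ (Ideal.mem_map_of_mem _ (h2 i))
  have h2 : algebraMap (𝓞 F) (𝓞 L) a ∈ (𝔭 ^ 2).map (algebraMap (𝓞 F) (𝓞 L)) := by
    rw [Ideal.map_pow]
    exact Ideal.pow_right_mono h1 2 hmem
  have h3 : (𝔭 ^ 2).map (algebraMap (𝓞 F) (𝓞 L)) =
      ((𝔭 ^ 2).map (C : 𝓞 F →+* (𝓞 F)[X])).map (aeval θ' : (𝓞 F)[X] →ₐ[𝓞 F] 𝓞 L).toRingHom := by
    rw [Ideal.map_map]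
    congr 1
    ext x
    simp
  rw [h3, Ideal.mem_map_iff_of_surjective] at h2
  swap
  · intro x
    obtain ⟨P, hP1, hP2⟩ := surj hI hG hsq hθ' x
    exact ⟨P, hP2⟩
  obtain ⟨P, hP1, hP2⟩ := h2
  rw [Ideal.mem_map_C_iff] at hP1
  have hP3 : aeval θ' P = algebraMap (𝓞 F) (𝓞 L) a := hP2
  set R := P %ₘ f with hR
  have hR1 : R.map (Ideal.Quotient.mk (𝔭 ^ 2)) = 0 := by
    rw [hR, map_modByMonic _ hG.mon]
    have h4 : P.map (Ideal.Quotient.mk (𝔭 ^ 2)) = 0 := by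
      ext n
      rw [coeff_map, coeff_zero]
      exact (Ideal.Quotient.eq_zero_iff_mem).2 (hP1 n)
    rw [h4, zero_modByMonic]
  have hR2 : aeval θ' R = algebraMap (𝓞 F) (𝓞 L) a := by
    rw [hR, aeval_modByMonic_eq_self_of_root (root' hG hθ'), hP3]
  have hR3 : (R - C a).degree < ((2 * g + 1 : ℕ) : WithBot ℕ) := by
    refine lt_of_le_of_lt (degree_sub_le _ _) (max_lt ?_ ?_)
    · have := degree_modByMonic_lt P hG.mon
      rwa [degree_eq_natDegree hG.mon.ne_zero, hG.deg] at this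
    · refine lt_of_le_of_lt degree_C_le ?_
      exact_mod_cast (by omega : 0 < 2 * g + 1)
  have hR4 := inj hG hθ' hR3 (by rw [map_sub, hR2, aeval_C, sub_self])
  have hR5 : R = C a := sub_eq_zero.1 hR4
  have hR6 : (R.map (Ideal.Quotient.mk (𝔭 ^ 2))).coeff 0 = 0 := by rw [hR1, coeff_zero]
  rw [hR5, coeff_map, coeff_C_zero] at hR6
  exact (Ideal.Quotient.eq_zero_iff_mem).1 hR6

/-! ### The primes over `q` -/

theorem rd_of_cg {𝔞 𝔭 : Ideal (𝓞 F)} {f' : (𝓞 F)[X]} (hle : 𝔞 ≤ 𝔭) (h : Cg 𝔞 f f') :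
    rd 𝔭 f = rd 𝔭 f' := by
  ext n
  rw [rd, rd, coeff_map, coeff_map, Ideal.Quotient.eq]
  exact hle (h n)

theorem sepX {k : Type} [Field k] [Finite k] {h : k[X]} (hi : Irreducible h)
    (hd : 2 ≤ h.natDegree) : (X * h).Separable := by
  refine separable_X.mul (PerfectField.separable_of_irreducible hi) ?_
  rw [irreducible_X.coprime_iff_not_dvd]
  intro hdvd
  have h1 : Associated X h := irreducible_X.associated_of_dvd hi hdvd
  have h2 := natDegree_eq_of_degree_eq (degree_eq_degree_of_associated h1)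
  rw [natDegree_X] at h2
  omega

theorem sepI {k : Type} [Field k] [Finite k] {h : k[X]} (hi : Irreducible h) : h.Separable :=
  PerfectField.separable_of_irreducible hi

theorem sep_q {W : ℕ} {S : Finset ℕ} {𝔮 : ℕ → Ideal (𝓞 F)} {r P : ℕ → (𝓞 F)[X]}
    (hS : GoodS g W S 𝔮 r P) {q : ℕ} (hq : q ∈ S) (hg : 1 ≤ g) (hc : Cg (sp F q) f (P q))
    {𝔭 : Ideal (𝓞 F)} (hp : 𝔭.IsPrime) (hp0 : 𝔭 ≠ ⊥) (hqp : (q : 𝓞 F) ∈ 𝔭) :
    (rd 𝔭 f).Separable ∧ (𝔭 ≠ 𝔮 q → Irreducible (rd 𝔭 f)) := by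
  obtain ⟨-, -, -, -, -, hqpr, hqm, hrm, hrd, hri, hAm, hAd, hAt, hAc, hAi⟩ := hS q hq
  haveI : 𝔭.IsMaximal := hp.isMaximal hp0
  letI : Field (𝓞 F ⧸ 𝔭) := Ideal.Quotient.field 𝔭
  haveI : Finite (𝓞 F ⧸ 𝔭) := Ideal.finiteQuotientOfFreeOfNeBot 𝔭 hp0
  have h1 : rd 𝔭 f = rd 𝔭 (P q) := rd_of_cg ((Ideal.span_singleton_le_iff_mem _).2 hqp) hc
  rw [h1]
  by_cases h : 𝔭 = 𝔮 q
  · refine ⟨?_, fun h' => absurd h h'⟩
    subst h
    rw [rd_of_cg (le_refl (𝔮 q)) hAc]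
    have e2 : rd (𝔮 q) (X * r q) = X * rd (𝔮 q) (r q) := by
      show (X * r q).map (Ideal.Quotient.mk (𝔮 q)) = X * (r q).map (Ideal.Quotient.mk (𝔮 q))
      rw [Polynomial.map_mul, Polynomial.map_X]
    rw [e2]
    refine sepX hri ?_
    show 2 ≤ ((r q).map (Ideal.Quotient.mk (𝔮 q))).natDegree
    rw [hrm.natDegree_map, hrd]
    omega
  · exact ⟨sepI (hAi 𝔭 hp hqp h), fun _ => hAi 𝔭 hp hqp h⟩

end gen

theorem not_ev_q {L : Type} [Field L] [NumberField L] {𝔓 : HeightOneSpectrum (𝓞 L)} {x : L}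
    (h : 𝔓.valuation L x = WithZero.exp (-1 : ℤ)) : ¬ Ev 𝔓 x := by
  rintro ⟨y, hy⟩
  rw [h] at hy
  have hy0 : 𝔓.valuation L y ≠ 0 := by
    intro h0
    rw [h0] at hy
    exact WithZero.exp_ne_zero (by rw [hy]; simp)
  obtain ⟨a, ha⟩ : ∃ a : ℤ, 𝔓.valuation L y = WithZero.exp a :=
    ⟨WithZero.log (𝔓.valuation L y), (WithZero.exp_log hy0).symm⟩
  rw [ha, ← WithZero.exp_nsmul] at hy
  have := WithZero.exp_injective hy
  simp only [nsmul_eq_mul] at this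
  push_cast at this
  omega

/-- **HQ**: the invariant at `q` in `S`. -/
theorem hq (h1 : S_TFQ) (_h2 : S_HVG) (h3 : S_INT) (h4 : S_EXQ) (h5 : S_CSQ) : S_HQ := by
  intro g W F L _ _ _ _ _ f θ S 𝔮 r P hg hG hsq hS q hq _ hc 𝔔 hO𝔔 hv𝔔 h hα hEv
  have hgood := hS q hq
  obtain ⟨hqp, hWq, hgq, hq8, hnr, hqpr, hqm, hrm, hrd, hri, hAm, hAd, hAt, hAc, hAi⟩ := hgood
  haveI := fin hG
  have hq0F : (q : 𝓞 F) ≠ 0 := by exact_mod_cast hqp.ne_zero
  have hq0L : (q : L) ≠ 0 := by exact_mod_cast hqp.ne_zero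
  have hcq : Cg (𝔮 q) f (X * r q) := by
    intro j
    have e1 : f.coeff j - (P q).coeff j ∈ 𝔮 q :=
      (Ideal.span_singleton_le_iff_mem _).2 hqm (hc j)
    have e2 := (𝔮 q).add_mem e1 (hAc j)
    rwa [sub_add_sub_cancel] at e2
  obtain ⟨𝔓₁, 𝔓₂, x1, x2, x3, x4, x5, x6, x7⟩ := h4 g W F L f θ S 𝔮 r P hg hG hsq hS q hq hcq
  obtain ⟨y1, y2, y3, y4⟩ := h5 g W F L f θ S 𝔮 r P hg hG hsq hS q hq hcq 𝔔 hO𝔔 hv𝔔
  -- the prime below a prime over `q`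
  have hbel : ∀ 𝔓 : HeightOneSpectrum (𝓞 L), (q : 𝓞 L) ∈ 𝔓.asIdeal → ∃ 𝔭 : Ideal (𝓞 F),
      𝔭.IsPrime ∧ 𝔭 ≠ ⊥ ∧ (q : 𝓞 F) ∈ 𝔭 ∧ Ov 𝔭 𝔓 := by
    intro 𝔓 hqP
    have hmem : (q : 𝓞 F) ∈ 𝔓.asIdeal.comap (algebraMap (𝓞 F) (𝓞 L)) := by
      rw [Ideal.mem_comap, map_natCast]
      exact hqP
    refine ⟨𝔓.asIdeal.comap (algebraMap (𝓞 F) (𝓞 L)), ?_, ?_, hmem, fun a ha => ha⟩
    · haveI := 𝔓.isPrime
      exact Ideal.comap_isPrime _ _
    · intro h0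
      rw [h0] at hmem
      exact hq0F ((Submodule.mem_bot _).1 hmem)
  have hvD : ∀ 𝔓 : HeightOneSpectrum (𝓞 L), (q : 𝓞 L) ∈ 𝔓.asIdeal →
      𝔓.valuation L (aeval θ (derivative (fF f))) = 1 := by
    intro 𝔓 hqP
    obtain ⟨𝔭, z1, z2, z3, z4⟩ := hbel 𝔓 hqP
    exact unit hG z4 (sep_q hS hq hg hc z1 z2 z3).1
  have hun : ∀ 𝔓 : HeightOneSpectrum (𝓞 L), (q : 𝓞 L) ∉ 𝔓.asIdeal ^ 2 := by
    intro 𝔓 hmem
    have hqP : (q : 𝓞 L) ∈ 𝔓.asIdeal := Ideal.pow_le_self two_ne_zero hmem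
    obtain ⟨𝔭, z1, z2, z3, z4⟩ := hbel 𝔓 hqP
    by_cases hz : 𝔭 = 𝔮 q
    · subst hz
      have hv : 𝔓.valuation L (q : L) = WithZero.exp (-1 : ℤ) := by
        rcases x7 𝔓 z4 with rfl | rfl
        · exact x5
        · exact x6
      have h6 : 𝔓.intValuation (q : 𝓞 L) ≤ WithZero.exp (-((2 : ℕ) : ℤ)) :=
        (𝔓.intValuation_le_pow_iff_mem _ 2).2 hmem
      have h7 : 𝔓.valuation L (algebraMap (𝓞 L) L (q : 𝓞 L)) = 𝔓.intValuation (q : 𝓞 L) :=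
        HeightOneSpectrum.valuation_of_algebraMap _ _
      rw [map_natCast, hv] at h7
      rw [← h7, WithZero.exp_le_exp] at h6
      exact absurd h6 (by norm_num)
    · have h6 := unram h3 hG hsq z1 z2 ((sep_q hS hq hg hc z1 z2 z3).2 hz) z4 (hnr 𝔭 z1)
      rw [map_natCast] at h6
      exact h6 hmem
  -- the element `c`
  set D : L := aeval θ (derivative (fF f)) with hD
  set α : L := aeval θ h with hαdef
  have hq𝔔 : (q : 𝓞 L) ∈ 𝔔.asIdeal := by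
    have := hO𝔔 _ hqm
    rwa [map_natCast] at this
  have hD0 : D ≠ 0 := by
    intro h0
    rw [h0, map_zero] at y3
    exact zero_ne_one y3
  have hθ0 : θ ≠ 0 := by
    intro h0
    rw [h0, map_zero] at hv𝔔
    exact zero_ne_one hv𝔔
  have hEvc : ∀ 𝔓 : HeightOneSpectrum (𝓞 L), (q : 𝓞 L) ∈ 𝔓.asIdeal →
      (Ev 𝔓 (α / D) ↔ Ev 𝔓 α) := by
    intro 𝔓 hqP
    unfold Ev
    rw [map_div₀, hvD 𝔓 hqP, div_one]
  have hmain := h1 L q (by omega) hun (Fin (2 * g + 1) × Fin (Module.finrank ℚ F))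
    ((Module.finBasis ℚ F).smulTower' hG.basis) (α / D) (div_ne_zero hα hD0) 𝔔 hq𝔔 y2
    (fun 𝔓 z1 z2 => (hEvc 𝔓 z1).2 (hEv 𝔓 z1 z2))
  -- the matrix
  have hmat : (Matrix.of fun i j => Algebra.trace ℚ L
      (((Module.finBasis ℚ F).smulTower' hG.basis) i * ((Module.finBasis ℚ F).smulTower' hG.basis) j
        * (α / D))) = Tf (Gm g (fF f) h) := by
    ext i j
    rw [Tf, Matrix.of_apply, Matrix.of_apply, Gm, Matrix.of_apply, tp_top hG, top_tr hG,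
      ← Algebra.trace_trace (S := F), Module.Basis.smulTower'_apply,
      Module.Basis.smulTower'_apply, hG.basis_apply, hG.basis_apply]
    congr 1
    rw [← smul_eq_mul (Module.finBasis ℚ F i.2 * Module.finBasis ℚ F j.2), ← map_smul]
    congr 1
    rw [map_mul, map_pow, aeval_X, Algebra.smul_def, Algebra.smul_def, Algebra.smul_def, map_mul,
      pow_add, ← hαdef, ← hD]
    ring
  rw [hmat] at hmain
  -- the condition
  have hcond : (¬ Ev 𝔔 (α / D) ∧ Sq1 𝔔 ((q : L) * (α / D))) ↔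
      (¬ Ev 𝔔 α ∧ ¬ Sq1 𝔔 (α * (q * θ))) := by
    rw [hEvc 𝔔 hq𝔔]
    refine and_congr_right fun hne => ?_
    have hvq : 𝔔.valuation L (q : L) = WithZero.exp (-1 : ℤ) := by
      rcases x7 𝔔 hO𝔔 with e | e
      · rw [e]
        exact x5
      · rw [e]
        exact x6
    have hneq := not_ev_q hvq
    have hcls := Pool.Agent.N457.PQ.cls L q 𝔔 (q : L) hqp (by
      rintro rfl
      omega) hq𝔔 hq0L hneq
    have hc0 : α / D ≠ 0 := div_ne_zero hα hD0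
    have hx0 : (q : L) * (α / D) ≠ 0 := mul_ne_zero hq0L hc0
    have hu0 : θ * D ≠ 0 := mul_ne_zero hθ0 hD0
    have hcE : ¬ Ev 𝔔 (α / D) := fun hh => hne ((hEvc 𝔔 hq𝔔).1 hh)
    have hxE : Ev 𝔔 ((q : L) * (α / D)) :=
      ((hcls _ _ hq0L hc0).1).2 ⟨fun hh => absurd hh hneq, fun hh => absurd hh hcE⟩
    have huE : Ev 𝔔 (θ * D) := ⟨1, by rw [map_mul, hv𝔔, y3, map_one, one_pow, mul_one]⟩
    have hxu := (hcls _ _ hx0 hu0)
    have hxuE : Ev 𝔔 ((q : L) * (α / D) * (θ * D)) := hxu.1.2 ⟨fun _ => huE, fun _ => hxE⟩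
    have hU : ∀ z : L, Ev 𝔔 z → (U0 𝔔 (q : L) z ↔ Sq1 𝔔 z) := by
      intro z hz
      unfold U0
      exact ⟨fun hh => hh.1 hz, fun hh => ⟨fun _ => hh, fun hh' => absurd hz hh'⟩⟩
    have h6 := hxu.2
    rw [hU _ hxuE, hU _ hxE, hU _ huE] at h6
    have h7 : (q : L) * (α / D) * (θ * D) = α * (q * θ) := by
      field_simp
    rw [h7] at h6
    rw [h6]
    constructor
    · intro h8 h9
      exact y4 (h9.1 h8)
    · intro h8
      by_contra h9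
      exact h8 ⟨fun hh => absurd hh h9, fun hh => absurd hh y4⟩
  simp only [hcond] at hmain
  exact hmain

end Pool.Agent.N849.PF
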